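import Pool.Agent.W5h93.EX.Ss

/-!
# Semisimplicity of the Galois action and the cubic hypersurfaces `T(x, y, z) = 1`

Let `k` be a finitely generated field of characteristic zero and `ε ∈ {0, 1}`. For a smooth projective
variety `X` over `k` let `δ(X)` be the Laurent polynomial whose coefficient at `c ≥ 0` is the length of
the Galois module `H^(2c+ε)(X)` minus the length of its socle. The Galois action is semisimple in the
degrees of parity `ε` if and only if `δ(X) = 0`. The invariant `δ` is compatible with blow-ups; so it
extends, by the theorem of Bittner, to an additive invariant of all separated schemes of finite type.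

The Galois action is semisimple in the degrees of parity `ε` for all varieties of dimension at most `n`
if and only if `δ = 0` for the smooth affine cubic hypersurfaces `T(x, y, z) = 1`, of arbitrary
dimension, where `T` is a trilinear form over `k` one of whose blocks of variables has at most `n + 2`
variables. For `k = ℚ` (then the irreducible schemes over `k` include all varieties over all number
fields) in all dimensions the hypersurfaces `∑_{(i, j, l) ∈ H} x_i y_j z_l = 1` of the tripartite
hypergraphs `H` are enough. By the theorem of Faltings `δ = 0` for blocks of at most three variables in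
the even degrees, and of at most four variables in the odd degrees; the first open cases are the blocks
of four and of five variables.
-/

set_option autoImplicit false

open CategoryTheory AlgebraicGeometry Pool.Agent.Y116.UV Pool.Agent.W5h93.EV Pool.Agent.W5h93.EX

universe u v

namespace Pool.Agent.Results.MP_b4801b_ag.EvenAndOddDegrees

/-- **Semisimplicity and trilinear forms, in the degrees of parity `ε`.** -/
theorem result (k : Type) [Field k] [CharZero k] (R : Type u) [Ring R] (D : GaloisData.{u, v} k R)
    (Q : Sch k → Prop) (hQ : IsClass Q) (hD : D.IsGalois Q) (ε : ℕ) (hε : ε ≤ 1)
    (δ : Sch k → ℤ → ℤ) (hδ : D.IsDefect Q ε δ) :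
    Reduces Q (D.Semisimple ε) (Vanish δ) ∧
      (ModelsIn Q (ε + 1) → ForForms (Vanish δ) (ε + 3)) := by
  have h : Reduces Q (D.Semisimple ε) (Vanish δ) :=
    reduces (bnd_additive hδ.additive) hQ fun _ hX => ss_iff hD hδ hX
  exact ⟨h, fun hM => (h.dim_iff_forms (ε + 1) hM).mp (ss_low hQ hD hε)⟩

end Pool.Agent.Results.MP_b4801b_ag.EvenAndOddDegrees
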