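import Pool.Agent.W5h2.SL.Final

/-!
# Semisimplicity of the Galois action and the growth of the Loewy length

Let `k` be a finitely generated field of characteristic zero, `p` a prime number (the `ℓ` of the
problem) and `Γ` the absolute Galois group of `k`. The cohomology `H (X) = ⨁ H ^ i (X)` of smooth
projective varieties `X` over `k` with coefficients in `ℚ_p` is a theory `T` as in `Kun`: `Γ` is
compact, the representations are continuous, and there is an equivariant graded Künneth isomorphism.

**Dichotomy.** If `H (X)` and `H (Y)` are semisimple, then so are all `H (X ^ n × Y)`. If
`H ^ i (X)` is not semisimple, then for EVERY `Y` and `n` the Loewy length of the representation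
`H ^ (n i + j) (X ^ n × Y)` is larger than `n` (if `H ^ j (Y)` is not zero), and all semisimple
subquotients of `H (X ^ n × Y)` have dimension at most `√(2 d / (n + 1)) * dim H (X ^ n × Y)`, where
`d = dim H (X)`.

**Equivalences.** Hence the conjecture of Grothendieck and Serre for all smooth projective varieties
over `k` (and one prime `p`) is equivalent to each of the following weaker statements: the Loewy length
of `H ^ i (X)` is bounded by a function of `i` which grows slower than linearly; the Loewy length of
`H (X)` is bounded by a function of `dim X` which grows slower than linearly; `H (X)` has a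
semisimple subquotient of relative dimension at least `g (dim X)`, where `g (n) √n` tends to
infinity. A linear bound `i / r + C` for the Loewy length of `H ^ i (X)`, for all `X` and `i`, implies
that `H ^ i (X)` is semisimple for all `i < r` and all `X`, and a linear bound `dim X / r + C` for
`H (X)` implies that the cohomology of all varieties of dimension less than `r` is semisimple.

Idea of the proof. By `p`-adic Lie theory the images of `Γ` in finitely many representations have a
common Lie algebra `L`; a representation is semisimple if and only if the radical of `L` acts by
semisimple operators (theorem of Levi and Weyl, averaging over a subgroup of finite index). If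
`H (X)` is not semisimple, let `N` be the nilpotent part of a non-semisimple operator given by an
element of the radical. The nilpotent part `N_n` of the same element on `H (X ^ n × Y)` is the sum of
the operators `1 ⊗ ... ⊗ N ⊗ ... ⊗ 1`; it is zero on all semisimple subquotients, and `N_n ^ n` is not
zero. The relative dimension of the kernel of `N_n` is bounded by the probability that a lazy random
walk stays positive for `n` steps.
-/

set_option autoImplicit false

open Pool.Agent.W5h2.SL

namespace Pool.Agent.Results.MP_b4801b_ag.LoewyGrowth

/-- **Semisimplicity and the growth of the Loewy length.** -/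
theorem result (p : ℕ) [Fact p.Prime] (Γ : Type) [Group Γ] [TopologicalSpace Γ]
    [IsTopologicalGroup Γ] [CompactSpace Γ] (Var : Type) (T : Kun p Γ Var) :
    (∀ X, T.GoodPowers X ∧ T.BadPowers X) ∧
      (T.Semisimple ↔ T.LoewyDeg) ∧ (T.Semisimple ↔ T.LoewyDim) ∧ (T.Semisimple ↔ T.BigLayer) ∧
      (∀ r, T.SlopeDeg r → ∀ X, ∀ i < r, T.SemiAt X i) ∧
      ∀ r, T.SlopeDim r → ∀ X, T.dim X < r → ∀ i, T.SemiAt X i :=
  ⟨fun X => ⟨good_powers T X, bad_powers T X⟩, iff_loewyDeg T, iff_loewyDim T, iff_bigLayer T,
    fun _ h X i hi => slope_deg T h X i hi, fun _ h X hX i => slope_dim T h X hX i⟩

end Pool.Agent.Results.MP_b4801b_ag.LoewyGrowth
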