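import Pool.Agent.W5h89.SSE.Main

/-!
# Semisimplicity of the Galois action and the intersection form on Tate classes

Let `W` be the `ℓ`-adic cohomology of the smooth projective varieties over a finitely generated
field `k` of characteristic zero (over the algebraic closure), or any Weil cohomology theory with
coefficients `ℚ_ℓ`, with a continuous action of a compact group `Γ` which has the formal properties
of the action of the Galois group. Let `X` be a variety, and assume one of the following.

* `k = ℚ`, in the form `IsOverQ`: there is a continuous homomorphism `θ` from the absolute Galois
  group of `ℚ` to `Γ` with image of finite index, and Frobenius elements at almost all prime
  numbers act on `H^i` by operators which are pure of weight `i` (Deligne).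
* The determinants of the stable subspaces `V` of the cohomology of `X` are potentially (on
  subgroups of finite index) square roots of powers of the cyclotomic character.
* They are potentially dual, up to Tate twists, to lines in the cohomology of powers of `X`.

**Theorem.** (A) The following are equivalent.

1. The action of `Γ` on `H^i(X)` is semisimple for all `i`.
2. The cohomology of all varieties which are dominated by a power of `X` is semisimple.
3. The intersection form on the space of Tate classes of `X ^ n` is nondegenerate, for all `n`.
4. The rank of the intersection form on the Tate classes of `X ^ n`, divided by the dimension of the
   space of Tate classes of `X ^ n`, does not tend to zero as `n` tends to infinity.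

(B) They are satisfied if a positive proportion of the Tate classes is algebraic, in the following
sense: for some `ε > 0` and infinitely many `n` the dimension of the space of algebraic cycles on
`X ^ n` modulo numerical equivalence is at least `ε` times the dimension of the space of Tate
classes of `X ^ n`.

(C) In the first two cases `H^i(X)` is semisimple if the intersection form on the space of Tate
classes of `X ^ b` is nondegenerate, for one number `b` not smaller than the Betti number `b_i(X)`.

So over `ℚ` the conjecture of Grothendieck and Serre says that the intersection form is
nondegenerate on the space of Tate classes of every smooth projective variety (over finite fields
this is the well known equivalence with the semisimplicity of the eigenvalue `1` of Frobenius), for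
a given variety `X` and degree `i` only the variety `X ^ {b_i}` has to be considered, and if the
conjecture is false for `X` the form is negligible on the Tate classes of `X ^ n` for large `n`.
Nothing about algebraic cycles is assumed.

Scope. For number fields `k` which do not contain a CM field, for example if `k` has a real place,
the determinants have the second property, by the theory of locally algebraic characters (Serre) and
the theorem that `ℓ`-adic cohomology is Hodge-Tate (Faltings). For a variety `X` over any number
field one can apply the theorem to the Weil restriction of `X` to `ℚ`: its cohomology, restricted to
the Galois group of `k`, contains that of `X`. The homomorphism `θ` makes the theorem applicable to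
finitely generated fields: let `k₀` be purely transcendental over `ℚ` and let `Γ` be the image
of the Galois group of `k₀` in the automorphisms of the cohomology of `X`; by the theorem of Hilbert
and Serre there are rational points at which the image of the Galois group of `ℚ` is all of `Γ`. Any
finitely generated field of characteristic zero is a finite extension of such a field `k₀`. The
third property is satisfied for `X × B` for a suitable product `B` of abelian varieties with complex
multiplication. (Moonen proved that the Tate conjecture for all smooth projective varieties implies
semisimplicity; the idea to use determinants of stable subspaces and such abelian varieties is
his.) The first case is the one in which the Lean proof contains the arithmetic.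

Idea of the proof. Let `V` be a stable subspace of `H^i(X)`, of dimension `d`, and `ψ` a generator of
the exterior power of maximal degree of `V`, which is a cohomology class on `X ^ d`. If the square of
the determinant of `V` is potentially a power of the cyclotomic character, `ψ × ψ` is a Tate
class on `X ^ (2 d)`. If the form is nondegenerate on Tate classes, there is a Tate class which does
not pair to zero with it, and it gives an alternating form on `H^i(X)`, semi-invariant under an open
subgroup and not zero on `V`, which determines a complement of `V`; it is made stable under the
whole group by averaging. By Poincaré duality one may assume that `2 d ≤ b_i(X)`. Over `ℚ` the
theorem of Kronecker and Weber and the `ℓ`-adic six exponentials theorem (in the starting files)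
show that the square of the determinant is potentially the power of the cyclotomic character with
exponent `i d`. Conversely, if the cohomology of `X` is semisimple, so is that of its powers
(Chevalley; by the `ℓ`-adic Lie algebra of the image), and a stable complement of the space of Tate
classes gives, by Poincaré duality, Tate classes in the complementary degree. By the growth
dichotomy of the starting files the form is nondegenerate on the Tate classes of all powers or its
rank is negligible.
-/

open CategoryTheory AlgebraicGeometry

universe u

namespace Pool.Agent.Results.MP_b4801b_ag.SemisimplicityCriterion

open Pool.Agent.H914 Pool.Agent.W5h89.SSP Pool.Agent.W5h89.SSE
open Pool.Agent.Y133.Half (pw cycRank)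

variable {k : Type u} [Field k] {𝒱 : VarClass k} {ops : CycleOps 𝒱}

/-- The criterion: `pw X n` is the product of `n + 1` copies of `X`. -/
theorem result (W : WeilCohomology.{u, 0} ops) (ℓ : ℕ) [Fact ℓ.Prime] (ι : W.K ≃+* ℚ_[ℓ])
    (Γ : Type) [Group Γ] [TopologicalSpace Γ] [IsTopologicalGroup Γ] [CompactSpace Γ]
    (A : GaloisAction W.toWeilData Γ) (hA : IsEllAdic ι A) (X : 𝒱.Obj)
    (hX : (∃ θ, IsOverQ θ A) ∨ HasCyclotomicDeterminants A X ∨ ∀ i, AllDual A X X i) :
    List.TFAE [Semisimple A X, SemisimpleBelow A X, ∀ n, Nondegenerate A (pw X n),
      NotNegligible (fun n => tateRank A (pw X n)) fun n => tateDim A (pw X n)] ∧
    (NotNegligible (fun n => cycRank ops (pw X n)) (fun n => tateDim A (pw X n)) →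
      Semisimple A X) ∧
    ((∃ θ, IsOverQ θ A) ∨ HasCyclotomicDeterminants A X → ∀ i b, betti W.toWeilData X i ≤ b →
      Nondegenerate A (pw X (b - 1)) → SemisimpleIn A X i) :=
  main hA hX

end Pool.Agent.Results.MP_b4801b_ag.SemisimplicityCriterion
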