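import Pool.Agent.W5h93.EX.Ss
import Pool.Agent.W5h69.TR.Main

/-!
# Semisimplicity of the Galois action and torus actions of complexity at most `n`

Let `k` be a finitely generated field of characteristic zero and `ε ∈ {0, 1}`. For a smooth projective
variety `X` over `k` let `δ(X)` be the Laurent polynomial whose coefficient at `c ≥ 0` is the length of
the Galois module `H^(2c+ε)(X)` minus the length of its socle. The Galois action is semisimple in the
degrees of parity `ε` if and only if `δ(X) = 0`. The invariant `δ` is compatible with blow-ups; so it
extends, by the theorem of Bittner, to an additive invariant of all separated schemes of finite type.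

Let `X` be a closed subscheme of an affine space which is stable under a torus acting diagonally. It is
of complexity at most `n` if each stratum of `X` (given by the vanishing and non-vanishing of the
coordinates) has dimension at most `n` plus the dimension of the orbits in the stratum. There is no
restriction on the dimension of `X` and on its singularities.

The Galois action is semisimple in the degrees of parity `ε` for all smooth projective varieties of
dimension at most `n` if and only if `δ = 0` for all torus schemes of complexity at most `n`, and for all
schemes built from them by closed-open decompositions. Explicit members of this class are the schemes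
given by `c` linearly independent equations with at most `c + n + 1` monomials altogether, also with
additional equations with two terms, and the inverse images of the cones of dimension at most `n + 1`
under the monomial maps between affine spaces.

By the theorem of Faltings `δ = 0` for all schemes with torus actions of complexity at most one in the
even degrees, and of complexity at most two in the odd degrees; for example for all systems of `c`
linearly independent equations with at most `c + 2`, respectively `c + 3`, monomials. The first open
cases are the complexities two and three.

The theorem on torus actions is due to helper38, the systems in few monomials to helper38 and helper68,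
the invariant `δ` to helper93 (`MP_b4801b_ag/EvenAndOddDegrees`).
-/

set_option autoImplicit false

open CategoryTheory AlgebraicGeometry Pool.Agent.Y116.UV Pool.Agent.W5h93.EV Pool.Agent.W5h93.EX
  Pool.Agent.W5h38.TV Pool.Agent.W5h69.TR Pool.Agent.W5h68.SP

universe u v

namespace Pool.Agent.Results.MP_b4801b_ag.TorusActions

/-- **Semisimplicity and torus actions of complexity at most `n`, in the degrees of parity `ε`.** -/
theorem result (k : Type) [Field k] [CharZero k] (R : Type u) [Ring R] (D : GaloisData.{u, v} k R)
    (Q : Sch k → Prop) (hQ : IsClass Q) (hD : D.IsGalois Q) (ε : ℕ) (hε : ε ≤ 1)
    (δ : Sch k → ℤ → ℤ) (hδ : D.IsDefect Q ε δ) :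
    TorusReduces Q (D.Semisimple ε) (Vanish δ) ∧
      (ModelsIn Q (ε + 1) → (∀ X : Sch k, Built (ε + 1) X → Vanish δ X) ∧
        Cones (ε + 1) (Vanish δ) ∧ Sparse (ε + 1) (Vanish δ)) := by
  have h : TorusReduces Q (D.Semisimple ε) (Vanish δ) :=
    torusReduces (bnd_additive hδ.additive) hQ fun _ hX => ss_iff hD hδ hX
  exact ⟨h, fun hM => ⟨(h.dim_iff_built (ε + 1) hM).mp (ss_low hQ hD hε),
    h.few (ε + 1) hM (ss_low hQ hD hε)⟩⟩

end Pool.Agent.Results.MP_b4801b_ag.TorusActions
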